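import Pool.Agent.W626.FR.Stms
import Pool.Agent.W782.FG.Split

/-!
# Project FR (MP_0cd4b8_pr, helper626): task FR-R2
-/

namespace W179FR

open MeasureTheory ProbabilityTheory Filter FrogGW FrogRec
open scoped ENNReal NNReal Classical Topology

/-- the elementary inequality for at least two positive children -/
theorem ptK (D : ℕ) (κ : ℕ → ℝ≥0) (hκ : ∀ k, κ k ≤ 1) (k : ℕ) (hk : k < D) (j : ℕ) (hj : j < D)
    (hjk : j ≠ k) (hj0 : κ j ≠ 0) :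
    (1 + ∑ l ∈ Finset.range D, κ l) / (∑ l ∈ Finset.range D, κ l) ^ 2 ≤
      12 * (∑ i ∈ (Finset.range D).erase k, ((κ i)⁻¹) ^ 2) *
        ((1 + ∑ l ∈ Finset.range D, κ l)⁻¹) ^ 2 := by
  set K := ∑ l ∈ Finset.range D, κ l with hK
  have hKk : K = κ k + ∑ l ∈ (Finset.range D).erase k, κ l :=
    (Finset.add_sum_erase _ κ (Finset.mem_range.2 hk)).symm
  set S := ∑ i ∈ (Finset.range D).erase k, ((κ i)⁻¹) ^ 2 with hS
  have hle : ∀ i < D, κ i ≤ K := fun i hi =>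
    Finset.single_le_sum (f := κ) (fun _ _ => zero_le) (Finset.mem_range.2 hi)
  have hK0 : 0 < K := lt_of_lt_of_le (pos_iff_ne_zero.2 hj0) (hle j hj)
  have hA : ∀ i < D, κ i ≠ 0 → ((1 + K) / K) ^ 2 ≤ 4 * ((κ i)⁻¹) ^ 2 := by
    intro i hi h0
    have h1 : (1 + K) / K ≤ 2 * (κ i)⁻¹ := by
      rw [← div_eq_mul_inv, div_le_div_iff₀ hK0 (pos_iff_ne_zero.2 h0)]
      have h2 : K * κ i ≤ K * 1 := mul_le_mul_right (hκ i) K
      calc (1 + K) * κ i = κ i + K * κ i := by ring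
        _ ≤ K + K * 1 := add_le_add (hle i hi) h2
        _ = 2 * K := by ring
    calc ((1 + K) / K) ^ 2 ≤ (2 * (κ i)⁻¹) ^ 2 := by gcongr
      _ = 4 * ((κ i)⁻¹) ^ 2 := by ring
  have hB : ∀ i < D, κ i * ((1 + K) / K) ^ 2 ≤ 4 * ((κ i)⁻¹) ^ 2 := by
    intro i hi
    by_cases h0 : κ i = 0
    · rw [h0]; simp
    · calc κ i * ((1 + K) / K) ^ 2 ≤ 1 * (4 * ((κ i)⁻¹) ^ 2) :=
            mul_le_mul' (hκ i) (hA i hi h0)
        _ = _ := one_mul _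
  have hjS : ((κ j)⁻¹) ^ 2 ≤ S :=
    Finset.single_le_sum (f := fun i => ((κ i)⁻¹) ^ 2) (fun _ _ => zero_le)
      (Finset.mem_erase.2 ⟨hjk, Finset.mem_range.2 hj⟩)
  have hC : (1 + K) * ((1 + K) / K) ^ 2 ≤ 12 * S := by
    have h1 : (∑ l ∈ (Finset.range D).erase k, κ l) * ((1 + K) / K) ^ 2 ≤ 4 * S := by
      rw [Finset.sum_mul, hS, Finset.mul_sum]
      exact Finset.sum_le_sum fun i hi =>
        hB i (Finset.mem_range.1 (Finset.mem_of_mem_erase hi))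
    calc (1 + K) * ((1 + K) / K) ^ 2
        ≤ (2 + ∑ l ∈ (Finset.range D).erase k, κ l) * ((1 + K) / K) ^ 2 := by
          apply mul_le_mul_left
          conv_lhs => rw [hKk]
          calc 1 + (κ k + ∑ l ∈ (Finset.range D).erase k, κ l)
              ≤ 1 + (1 + ∑ l ∈ (Finset.range D).erase k, κ l) := by gcongr; exact hκ k
            _ = _ := by ring
      _ = 2 * ((1 + K) / K) ^ 2 +
          (∑ l ∈ (Finset.range D).erase k, κ l) * ((1 + K) / K) ^ 2 := by ring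
      _ ≤ 2 * (4 * S) + 4 * S := by
          refine add_le_add ?_ h1
          exact mul_le_mul_right (le_trans (hA j hj hj0) (mul_le_mul_right hjS 4)) 2
      _ = 12 * S := by ring
  have h1K : (1 + K) ≠ 0 := by positivity
  calc (1 + K) / K ^ 2 = ((1 + K) * ((1 + K) / K) ^ 2) * ((1 + K)⁻¹) ^ 2 := by
        have : K ≠ 0 := hK0.ne'
        field_simp
    _ ≤ 12 * S * ((1 + K)⁻¹) ^ 2 := mul_le_mul_left hC _


/-- the function for a single positive child -/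
noncomputable def ff (M mu ε : ℝ≥0) (n : ℕ) (Y : Env) : ℝ≥0∞ :=
  (((1 + ε) * (kap n Y)⁻¹ + (4 * ε)⁻¹ * kap n Y : ℝ≥0) : ℝ≥0∞) * EG M mu 2 n Y

theorem amgm (ε x : ℝ≥0) (hε : 0 < ε) (hx : 0 < x) : 1 ≤ ε * x⁻¹ + (4 * ε)⁻¹ * x := by
  rw [← NNReal.coe_le_coe]
  push_cast
  have h1 : (0 : ℝ) < ε := by exact_mod_cast hε
  have h2 : (0 : ℝ) < x := by exact_mod_cast hx
  have h3 : (ε : ℝ) * (x : ℝ)⁻¹ + (4 * (ε : ℝ))⁻¹ * x - 1 =
      (2 * (ε : ℝ) - x) ^ 2 / (4 * ε * x) := by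
    field_simp
    ring
  have h4 : 0 ≤ (2 * (ε : ℝ) - x) ^ 2 / (4 * ε * x) := by positivity
  linarith

theorem gg_le (M a b κ : ℝ≥0) (hM : 1 ≤ M) : gg M 2 1 (a / κ + b) ≤ gg M 2 κ a := by
  unfold gg
  have h1 : 1 + a / (κ * M) ≤ 1 + (a / κ + b) / (1 * M) := by
    have hM0 : 0 < M := lt_of_lt_of_le one_pos hM
    rw [one_mul, ← div_div]
    gcongr
    exact le_self_add
  gcongr

theorem pt (hKap : TaskKap) (hNu : TaskNu) (hS : TaskStar) (M mu ε : ℝ≥0) (hM : 1 ≤ M)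
    (hε : 0 < ε) (n : ℕ) (Z : Env) :
    (((kap (n + 1) Z)⁻¹ : ℝ≥0) : ℝ≥0∞) * EG M mu 2 (n + 1) Z ≤
      (∑ k ∈ Finset.range (Z []),
        (if ∀ j < Z [], j ≠ k → kap n (sh j Z) = 0 then ff M mu ε n (sh k Z) else 0)) +
      12 * (∑ k ∈ Finset.range (Z []), ∑ j ∈ (Finset.range (Z [])).erase k,
        ((kap n (sh k Z) : ℝ≥0∞) * EG M mu 2 n (sh k Z)) *
        ((((kap n (sh j Z))⁻¹) ^ 2 : ℝ≥0) : ℝ≥0∞) *
        ((((1 + ∑ l ∈ Finset.range (Z []), kap n (sh l Z))⁻¹) ^ 2 : ℝ≥0) : ℝ≥0∞)) +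
      Ls mu n Z := by
  by_cases hK : KK n Z = 0
  · have h1 : kap (n + 1) Z = 0 := by
      have : kap (n + 1) Z = KK n Z / (1 + KK n Z) := rfl
      rw [this, hK]; simp
    rw [h1]; simp
  have hkc : ∀ k < Z [], kc n Z k = kap n (sh k Z) := fun k hk => by simp [kc, hk]
  have hK1 : ∑ k ∈ Finset.range (Z []), kc n Z k = KK n Z := (hKap.2.2.2.1 n Z).symm
  have hK2 : ∑ k ∈ Finset.range (Z []), kap n (sh k Z) = KK n Z := rfl
  have hkap : kap (n + 1) Z = (∑ k ∈ Finset.range (Z []), kc n Z k) /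
      (1 + ∑ k ∈ Finset.range (Z []), kc n Z k) := by
    rw [hK1]; rfl
  have hnu : nu mu (n + 1) Z = star mu (Z []) (kc n Z) (nc mu n Z) := rfl
  have hprob : ∀ k, IsProbabilityMeasure (nc mu n Z k) := by
    intro k
    unfold nc
    split_ifs
    · exact hNu.2.1 mu n _
    · infer_instance
  have hst := hS M mu 2 (Z []) (kc n Z) (nc mu n Z) (lt_of_lt_of_le one_pos hM) (Or.inr rfl)
    hprob (by rw [hK1]; exact hK)
  have hEG : EG M mu 2 (n + 1) Z = ∫⁻ lam, (gg M 2 ((∑ k ∈ Finset.range (Z []), kc n Z k) /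
      (1 + ∑ k ∈ Finset.range (Z []), kc n Z k)) lam : ℝ≥0∞)
      ∂(star mu (Z []) (kc n Z) (nc mu n Z)) := by
    unfold EG
    rw [hnu, hkap]
  rw [hEG, hkap]
  refine le_trans (mul_le_mul_right hst _) ?_
  rw [hK1] at hst ⊢
  rw [hK2]
  have hkle : ∀ k, kc n Z k ≤ 1 := by
    intro k
    unfold kc
    split_ifs
    · exact hKap.1 n _
    · exact zero_le
  -- split
  have hsplit : (((KK n Z / (1 + KK n Z))⁻¹ : ℝ≥0) : ℝ≥0∞) *
      ∑ k ∈ Finset.range (Z []), ((kc n Z k / KK n Z : ℝ≥0) : ℝ≥0∞) *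
      (∫⁻ lam, (gg M 2 1 (lam / kc n Z k + mu / KK n Z) : ℝ≥0∞) ∂(nc mu n Z k) +
        ∑ J ∈ (Finset.range (Z [])).erase k,
          ((kc n Z J / KK n Z : ℝ≥0) : ℝ≥0∞) * TT mu (Z []) (kc n Z) (nc mu n Z) k J) =
      (∑ k ∈ Finset.range (Z []), ((((KK n Z / (1 + KK n Z))⁻¹ * (kc n Z k / KK n Z) : ℝ≥0)) :
        ℝ≥0∞) * ∫⁻ lam, (gg M 2 1 (lam / kc n Z k + mu / KK n Z) : ℝ≥0∞) ∂(nc mu n Z k)) +
      Ls mu n Z := by
    unfold Ls LL
    rw [hK1, Finset.mul_sum, ← Finset.sum_add_distrib]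
    refine Finset.sum_congr rfl fun k _ => ?_
    rw [mul_add, mul_add, ENNReal.coe_mul, mul_assoc]
    congr 1
    rw [Finset.mul_sum, Finset.mul_sum]
    refine Finset.sum_congr rfl fun J _ => ?_
    push_cast
    ring
  rw [hsplit]
  refine add_le_add ?_ le_rfl
  rw [Finset.mul_sum, ← Finset.sum_add_distrib]
  refine Finset.sum_le_sum fun k hk => ?_
  have hkD : k < Z [] := Finset.mem_range.1 hk
  have hA : ∫⁻ lam, (gg M 2 1 (lam / kc n Z k + mu / KK n Z) : ℝ≥0∞) ∂(nc mu n Z k) ≤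
      EG M mu 2 n (sh k Z) := by
    unfold EG
    have h1 : nc mu n Z k = nu mu n (sh k Z) := by simp [nc, hkD]
    rw [h1, hkc k hkD]
    exact lintegral_mono fun lam => ENNReal.coe_le_coe.2 (gg_le M lam _ _ hM)
  refine le_trans (mul_le_mul_right hA _) ?_
  have hcoef : (KK n Z / (1 + KK n Z))⁻¹ * (kc n Z k / KK n Z) =
      kap n (sh k Z) * ((1 + KK n Z) / KK n Z ^ 2) := by
    rw [hkc k hkD]
    have h1 : (1 + KK n Z) ≠ 0 := by positivity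
    field_simp
  rw [hcoef]
  by_cases hc : ∀ j < Z [], j ≠ k → kap n (sh j Z) = 0
  · rw [if_pos hc]
    refine le_trans ?_ le_self_add
    unfold ff
    refine mul_le_mul_left (ENNReal.coe_le_coe.2 ?_) _
    have h1 : KK n Z = kap n (sh k Z) := by
      rw [← hK2]
      exact Finset.sum_eq_single k (fun j hj hjk => hc j (Finset.mem_range.1 hj) hjk)
        (fun h => absurd hk h)
    have h0 : kap n (sh k Z) ≠ 0 := by rw [← h1]; exact hK
    rw [h1]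
    calc kap n (sh k Z) * ((1 + kap n (sh k Z)) / kap n (sh k Z) ^ 2)
        = (kap n (sh k Z))⁻¹ + 1 := by field_simp
      _ ≤ (kap n (sh k Z))⁻¹ + (ε * (kap n (sh k Z))⁻¹ + (4 * ε)⁻¹ * kap n (sh k Z)) := by
          gcongr
          exact amgm ε _ hε (pos_iff_ne_zero.2 h0)
      _ = _ := by ring
  · rw [if_neg hc, zero_add]
    push Not at hc
    obtain ⟨j, hj, hjk, hj0⟩ := hc
    have h1 := ptK (Z []) (kc n Z) hkle k hkD j hj hjk (by rw [hkc j hj]; exact hj0)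
    rw [hK1] at h1
    calc ((kap n (sh k Z) * ((1 + KK n Z) / KK n Z ^ 2) : ℝ≥0) : ℝ≥0∞) * EG M mu 2 n (sh k Z)
        ≤ ((kap n (sh k Z) * (12 * (∑ i ∈ (Finset.range (Z [])).erase k, ((kc n Z i)⁻¹) ^ 2) *
          ((1 + KK n Z)⁻¹) ^ 2) : ℝ≥0) : ℝ≥0∞) * EG M mu 2 n (sh k Z) := by
          refine mul_le_mul_left (ENNReal.coe_le_coe.2 (mul_le_mul_right h1 _)) _
      _ = 12 * ∑ j ∈ (Finset.range (Z [])).erase k,
        ((kap n (sh k Z) : ℝ≥0∞) * EG M mu 2 n (sh k Z)) *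
        ((((kap n (sh j Z))⁻¹) ^ 2 : ℝ≥0) : ℝ≥0∞) *
        ((((1 + KK n Z)⁻¹) ^ 2 : ℝ≥0) : ℝ≥0∞) := by
          rw [← Finset.sum_mul, ← Finset.mul_sum, ← ENNReal.ofNNReal_finsetSum]
          have h2 : ∑ i ∈ (Finset.range (Z [])).erase k, ((kc n Z i)⁻¹) ^ 2 =
              ∑ i ∈ (Finset.range (Z [])).erase k, ((kap n (sh i Z))⁻¹) ^ 2 :=
            Finset.sum_congr rfl fun i hi => by
              rw [hkc i (Finset.mem_range.1 (Finset.mem_of_mem_erase hi))]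
          rw [h2, ENNReal.coe_mul, ENNReal.coe_mul, ENNReal.coe_mul]
          push_cast
          ring


theorem tr2 : TaskKap → TaskMeasZ → TaskEnv → TaskN1 → TaskN2 → TaskNu → TaskStar → TaskSing →
    TaskDS2 → TaskR2 := by
  intro hKap hMZ hEnv hN1 hN2 hNu hStar hSing hDS2 p _ hp
  obtain ⟨⟨z, hz1, hz2, hz3⟩, ⟨c, hc0, hc⟩, -, -⟩ := hEnv p hp
  obtain ⟨C2, hC2⟩ := hN2 p hp 1 le_rfl (by simpa using hN1 p hp)
  simp only [mul_one] at hC2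
  set F := ∑' k, p {k} * ((k : ℝ≥0∞) * z ^ (k - 1)) with hF
  obtain ⟨F', hF'⟩ : ∃ F' : ℝ≥0, F = F' := ⟨F.toNNReal, (ENNReal.coe_toNNReal hz3.ne_top).symm⟩
  have hF1 : F' < 1 := by
    rw [hF'] at hz3
    exact_mod_cast hz3
  have hε : 0 < (1 - F') / 2 := by
    have : 0 < 1 - F' := tsub_pos_of_lt hF1
    positivity
  set ε := (1 - F') / 2 with hεd
  have hρ : F' * (1 + ε) < 1 := by
    have h1 : (F' : ℝ) < 1 := by exact_mod_cast hF1
    have h2 : (ε : ℝ) = (1 - F') / 2 := by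
      rw [hεd]; push_cast [NNReal.coe_sub hF1.le]; rfl
    rw [← NNReal.coe_lt_coe]
    push_cast
    rw [h2]
    nlinarith [F'.2]
  refine ⟨F' * (1 + ε), hρ, F' * (4 * ε)⁻¹ + 12 * (4 * (c ^ 2)⁻¹ * C2), ?_⟩
  intro M mu hM n
  have hmk : Measurable (kap n) := hMZ.1 (n + 1) ℝ≥0 (kap n) fun Z Z' h => (hMZ.2.1 n Z Z' h).1
  have hmE : Measurable (EG M mu 2 n) := hMZ.1 (n + 1) ℝ≥0∞ _ fun Z Z' h => by
    unfold EG
    rw [(hMZ.2.1 n Z Z' h).1, (hMZ.2.1 n Z Z' h).2 mu]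
  have hmk' : Measurable fun Y => ((kap n Y : ℝ≥0) : ℝ≥0∞) := hmk.coe_nnreal_ennreal
  have hmf : Measurable (ff M mu ε n) := by
    have e : Measurable fun Y => ((1 + ε) * (kap n Y)⁻¹ + (4 * ε)⁻¹ * kap n Y : ℝ≥0) :=
      (hmk.inv.const_mul (1 + ε)).add (hmk.const_mul ((4 * ε)⁻¹))
    exact e.coe_nnreal_ennreal.mul hmE
  have hmg : Measurable fun Y => (kap n Y : ℝ≥0∞) * EG M mu 2 n Y := hmk'.mul hmE
  have hmh : Measurable fun Y => ((((kap n Y)⁻¹) ^ 2 : ℝ≥0) : ℝ≥0∞) :=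
    (hmk.inv.pow_const 2).coe_nnreal_ennreal
  set T : Env → ℕ × (ℕ → Env) := fun Z => (Z [], fun i => sh i Z) with hT
  have hTm : MeasurePreserving T (GW p) (p.prod (Measure.infinitePi fun _ : ℕ => GW p)) :=
    Pool.Agent.W782.FG.tree p
  set G1 : ℕ × (ℕ → Env) → ℝ≥0∞ := fun q => ∑ i ∈ Finset.range q.1,
    (if ∀ j < q.1, j ≠ i → kap n (q.2 j) = 0 then ff M mu ε n (q.2 i) else 0) with hG1
  set G2 : ℕ × (ℕ → Env) → ℝ≥0∞ := fun q => ∑ i ∈ Finset.range q.1,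
    ∑ j ∈ (Finset.range q.1).erase i, ((kap n (q.2 i) : ℝ≥0∞) * EG M mu 2 n (q.2 i)) *
      ((((kap n (q.2 j))⁻¹) ^ 2 : ℝ≥0) : ℝ≥0∞) *
      ((((1 + ∑ l ∈ Finset.range q.1, kap n (q.2 l))⁻¹) ^ 2 : ℝ≥0) : ℝ≥0∞) with hG2
  have hmG1 : Measurable G1 := by
    apply measurable_from_prod_countable_right
    intro k
    simp only [hG1]
    refine Finset.measurable_fun_sum _ fun i _ => ?_
    refine Measurable.ite ?_ (hmf.comp (measurable_pi_apply i)) measurable_const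
    simp only [Set.ofPred_forall]
    refine MeasurableSet.iInter fun j => MeasurableSet.iInter fun _ => MeasurableSet.iInter
      fun _ => ?_
    exact (hmk.comp (measurable_pi_apply j)) (measurableSet_singleton 0)
  have hmG2 : Measurable G2 := by
    apply measurable_from_prod_countable_right
    intro k
    simp only [hG2]
    refine Finset.measurable_fun_sum _ fun i _ => Finset.measurable_fun_sum _ fun j _ => ?_
    refine ((hmg.comp (measurable_pi_apply i)).mul (hmh.comp (measurable_pi_apply j))).mul ?_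
    refine Measurable.coe_nnreal_ennreal (Measurable.pow_const (Measurable.inv
      (measurable_const.add (Finset.measurable_fun_sum _ fun l _ =>
        hmk.comp (measurable_pi_apply l)))) 2)
  -- the pointwise bound
  have h1 : Psi p M mu (n + 1) ≤
      ∫⁻ Z, (G1 (T Z) + 12 * G2 (T Z) + Ls mu n Z) ∂(GW p) := by
    unfold Psi
    exact lintegral_mono fun Z => pt hKap hNu hStar M mu ε hM hε n Z
  have h2 : ∫⁻ Z, (G1 (T Z) + 12 * G2 (T Z) + Ls mu n Z) ∂(GW p) =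
      (∫⁻ Z, G1 (T Z) ∂(GW p)) + 12 * (∫⁻ Z, G2 (T Z) ∂(GW p)) + ∫⁻ Z, Ls mu n Z ∂(GW p) := by
    have e1 : Measurable fun Z => G1 (T Z) := hmG1.comp hTm.measurable
    have e2 : Measurable fun Z => G2 (T Z) := hmG2.comp hTm.measurable
    have e3 : Measurable fun Z => G1 (T Z) + 12 * G2 (T Z) := e1.add (e2.const_mul 12)
    rw [lintegral_add_left e3, lintegral_add_left e1, lintegral_const_mul _ e2]
  have h3 : ∫⁻ Z, G1 (T Z) ∂(GW p) = (∑' k, p {k} * ((k : ℝ≥0∞) *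
      GW p {Z | kap n Z = 0} ^ (k - 1))) * ∫⁻ Z, ff M mu ε n Z ∂(GW p) := by
    rw [hTm.lintegral_comp hmG1, lintegral_prod _ hmG1.aemeasurable]
    exact hSing Env (GW p) (kap n) p (ff M mu ε n) hmk hmf
  have h4 : (∑' k, p {k} * ((k : ℝ≥0∞) * GW p {Z | kap n Z = 0} ^ (k - 1))) ≤ F' := by
    rw [← hF', hF]
    exact ENNReal.tsum_le_tsum fun k => by gcongr; exact hz2 n
  have h5 : ∫⁻ Z, ff M mu ε n Z ∂(GW p) =
      ((1 + ε : ℝ≥0) : ℝ≥0∞) * Psi p M mu n + (((4 * ε)⁻¹ : ℝ≥0) : ℝ≥0∞) * Gain p M mu n := by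
    unfold Psi Gain ff
    have e0 : Measurable fun Y => (kap n Y)⁻¹ := hmk.inv
    have e1 : Measurable fun Y => (((kap n Y)⁻¹ : ℝ≥0) : ℝ≥0∞) * EG M mu 2 n Y :=
      e0.coe_nnreal_ennreal.mul hmE
    have e2 : Measurable fun Y => ((1 + ε : ℝ≥0) : ℝ≥0∞) *
        ((((kap n Y)⁻¹ : ℝ≥0) : ℝ≥0∞) * EG M mu 2 n Y) := e1.const_mul _
    rw [← lintegral_const_mul _ e1, ← lintegral_const_mul _ hmg, ← lintegral_add_left e2]
    refine lintegral_congr fun Y => ?_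
    rw [ENNReal.coe_add, ENNReal.coe_mul, ENNReal.coe_mul]
    ring
  have h6 : ∫⁻ Z, G2 (T Z) ∂(GW p) ≤ ((4 * (c ^ 2)⁻¹ * C2 : ℝ≥0) : ℝ≥0∞) * Gain p M mu n := by
    rw [hTm.lintegral_comp hmG2, lintegral_prod _ hmG2.aemeasurable]
    have h7 := hDS2 Env (GW p) (kap n) p (fun Y => (kap n Y : ℝ≥0∞) * EG M mu 2 n Y)
      (fun Y => ((((kap n Y)⁻¹) ^ 2 : ℝ≥0) : ℝ≥0∞)) hmk hmg hmh (hKap.1 n)
    have h8 : (c : ℝ≥0∞) ^ 2 * ∫⁻ k, ∫⁻ Y, G2 (k, Y) ∂(Measure.infinitePi fun _ : ℕ => GW p) ∂p ≤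
        4 * Gain p M mu n * C2 := by
      refine le_trans (mul_le_mul_left (pow_le_pow_left₀ zero_le (hc n) 2) _) ?_
      refine le_trans h7 ?_
      exact mul_le_mul_right (hC2 n) _
    have hc2 : (c : ℝ≥0∞) ^ 2 ≠ 0 := by
      have : (c : ℝ≥0∞) ≠ 0 := by exact_mod_cast hc0.ne'
      exact pow_ne_zero _ this
    have hc3 : (c : ℝ≥0∞) ^ 2 ≠ ∞ := ENNReal.pow_ne_top ENNReal.coe_ne_top
    calc ∫⁻ k, ∫⁻ Y, G2 (k, Y) ∂(Measure.infinitePi fun _ : ℕ => GW p) ∂p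
        = ((c : ℝ≥0∞) ^ 2)⁻¹ * ((c : ℝ≥0∞) ^ 2 *
          ∫⁻ k, ∫⁻ Y, G2 (k, Y) ∂(Measure.infinitePi fun _ : ℕ => GW p) ∂p) := by
          rw [← mul_assoc, ENNReal.inv_mul_cancel hc2 hc3, one_mul]
      _ ≤ ((c : ℝ≥0∞) ^ 2)⁻¹ * (4 * Gain p M mu n * C2) := mul_le_mul_right h8 _
      _ = ((4 * (c ^ 2)⁻¹ * C2 : ℝ≥0) : ℝ≥0∞) * Gain p M mu n := by
          have : (((c ^ 2)⁻¹ : ℝ≥0) : ℝ≥0∞) = ((c : ℝ≥0∞) ^ 2)⁻¹ := by
            rw [ENNReal.coe_inv (by positivity), ENNReal.coe_pow]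
          rw [ENNReal.coe_mul, ENNReal.coe_mul, this]
          push_cast
          ring
  refine le_trans h1 ?_
  rw [h2, h3, h5]
  refine add_le_add ?_ le_rfl
  refine le_trans (add_le_add (mul_le_mul_left h4 _) (mul_le_mul_right h6 12)) ?_
  apply le_of_eq
  push_cast
  ring

end W179FR
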